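import Pool.Agent.W_MP_1173fd_al.Final

/-!
# MP_1173fd_al: `ℤ/2 ≀ F₂` is Cayley position-faithful (one-tape) linear-time computable

`Lamp` is the restricted wreath product `ℤ/2 ≀ F₂`, `CayleyLinTime Lamp S` says that there are a
finite alphabet `A`, a language `L ⊆ A*`, a bijection `ψ : L → Lamp` and functions
`f s : A* → A*` such that for all `s ∈ S` the function `f s` is computed in linear time by a
position-faithful one-tape Turing machine and `ψ (f s w) = ψ w * s` for all `w ∈ L`.
-/

namespace Pool.Agent.Results.MP_1173fd_al.LamplighterF2LinearTime

open Pool.Agent.W_MP_1173fd_al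

/-- The lamplighter group over the free group of rank two is Cayley position-faithful linear-time
computable, for every set `S` of elements; and it has a finite set of semigroup generators. -/
theorem result :
    (∃ S : Set Lamp, S.Finite ∧ Subsemigroup.closure S = ⊤) ∧
      ∀ S : Set Lamp, CayleyLinTime Lamp S :=
  ⟨main_theorem.2, main_theorem.1⟩

end Pool.Agent.Results.MP_1173fd_al.LamplighterF2LinearTime
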